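import Pool.Agent.Q257.Gauss.Constr

/-!
# Averages of multiplicative functions on the far shifted squares `⌊N ^ (1 + ε)⌋ + Q_N` need not converge

By Chebyshev's method a positive proportion of the elements of `Φ_N` has a Gaussian prime factor with norm
more than `8 N ^ 2`: the sum of the logarithms of the norms is about `(2 + 2 ε) log N` times the number of
elements, and the primes with norm at most `8 N ^ 2` contribute about as much as in the square `N + Q_N`,
which is at most `(2 + o(1)) log N` times the number of elements. The same holds for primes with norm more than
`K N ^ 2`, since the number of primes with norm at most `K N ^ 2` is `o(N ^ 2)`, and each of those above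
`8 N ^ 2` divides at most one element. Now choose a sparse sequence of scales `N`, one such prime factor for
each of these elements of `Φ_N`, and let `f` be `0` at the multiples of the chosen primes and `1` elsewhere. At
the chosen scales the average of `f` is at most `1 - c / 2`, but at the scales `Λ N`, for a large constant `Λ`,
it is at least `1 - c / 4`.
-/

set_option autoImplicit false

namespace Pool.Agent.Results.MP_acc225_nt.FarSquaresDiverge

open Q257.Gauss

/-- **Theorem.** For every `ε > 0` there is a bounded completely multiplicative real function `f` on the
nonzero Gaussian integers for which the averages over the squares `Φ_N = ⌊N ^ (1 + ε)⌋ + Q_N` do not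
converge. -/
theorem result (ε : ℝ) (hε : 0 < ε) : ∃ f : GaussianInt → ℝ, IsCompletelyMultiplicative f ∧ IsBdd f ∧
    ¬ ∃ ℓ : ℝ, Filter.Tendsto (avg ε f) Filter.atTop (nhds ℓ) := main hε

end Pool.Agent.Results.MP_acc225_nt.FarSquaresDiverge
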